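import Pool.Agent.H.MP_f5330b_al.B

set_option autoImplicit false
open scoped Pointwise
open Pool.Agent.H.MP_f5330b_al

namespace Pool.Agent.Results.MP_f5330b_al.NotQI

def Condensed (G : Type) [Group G] : Prop :=
  ∀ (n : ℕ) (φ : FreeGroup (Fin (n + 1)) →* G), Function.Surjective φ → ∀ F : Finset (FreeGroup (Fin (n + 1))),
    ∃ ψ : FreeGroup (Fin (n + 1)) →* G, Function.Surjective ψ ∧ ψ.ker ≠ φ.ker ∧ ∀ w ∈ F, (w ∈ ψ.ker ↔ w ∈ φ.ker)

def ball {G : Type} [Group G] (S : Finset G) (n : ℕ) : Set G := ({1} ∪ (S : Set G) ∪ (S : Set G)⁻¹) ^ n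

def QI (G H : Type) [Group G] [Group H] : Prop :=
  ∃ (S : Finset G) (T : Finset H) (f : G → H) (C : ℕ),
    Subgroup.closure (S : Set G) = ⊤ ∧ Subgroup.closure (T : Set H) = ⊤ ∧
    (∀ x y n, x⁻¹ * y ∈ ball S n → (f x)⁻¹ * f y ∈ ball T (C * n + C)) ∧
    (∀ x y n, (f x)⁻¹ * f y ∈ ball T n → x⁻¹ * y ∈ ball S (C * n + C)) ∧
    ∀ y, ∃ x, (f x)⁻¹ * y ∈ ball T C

theorem result : ∃ (G H : Type) (_ : Group G) (_ : Group H),
    Group.FG G ∧ Group.FG H ∧ QI G H ∧ Condensed G ∧ ¬ Condensed H := by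
  classical
  let c : E l0 0 := ⟨0, 1, 0⟩
  let S : Finset (E l0 0) := insert c (Finset.univ.image (gn l0 0))
  have hS : Subgroup.closure (S : Set (E l0 0)) = ⊤ := gen _ (fun i => Subgroup.subset_closure (by simp [S])) fun z => by
    rcases (by decide : ∀ z : ZMod 2, z = 0 ∨ z = 1) z with rfl | rfl
    exacts [Subgroup.one_mem _, Subgroup.subset_closure (by simp [S, c])]
  have hp : Function.Surjective pr := fun y => ⟨⟨y.v, 0, y.n⟩, rfl⟩
  have hT : Subgroup.closure ((S.image pr : Finset Q) : Set Q) = ⊤ := by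
    rw [Finset.coe_image, ← MonoidHom.map_closure, hS, ← MonoidHom.range_eq_map, MonoidHom.range_eq_top.2 hp]
  have hb : ∀ n, ball (S.image pr) n = pr '' ball S n := fun n => by
    simp only [ball, Set.image_pow, Set.image_union, Set.image_singleton, map_one, Finset.coe_image, Set.image_inv]
  refine ⟨E l0 0, Q, _, _, ⟨S, hS⟩, ⟨_, hT⟩, ⟨S, S.image pr, pr, 1, hS, hT, fun x y n h => ?_, fun x y n h => ?_, fun y => ?_⟩,
    fun _ => cond, fun h => ?_⟩
  · rw [hb, ← map_inv, ← map_mul]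
    exact ⟨_, Set.pow_subset_pow_right (by simp) (by omega) h, rfl⟩
  · rw [hb, ← map_inv, ← map_mul] at h
    obtain ⟨u, a, b⟩ := h
    rw [one_mul, ball, pow_succ]
    refine ⟨u, a, u⁻¹ * (x⁻¹ * y), ?_, mul_inv_cancel_left _ _⟩
    have : pr (u⁻¹ * (x⁻¹ * y)) = 1 := by rw [map_mul, map_inv, b, inv_mul_cancel]
    generalize u⁻¹ * (x⁻¹ * y) = z at this
    rcases (by decide : ∀ z : ZMod 2, z = 0 ∨ z = 1) z.c with e | e
    · exact .inl (.inl (E.ext (congrArg E.v this :) e (congrArg E.n this :)))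
    · exact .inl (.inr (Finset.mem_insert.2 (.inl (E.ext (congrArg E.v this :) e (congrArg E.n this :)))))
  · obtain ⟨x, rfl⟩ := hp y
    exact ⟨x, by simp [ball]⟩
  · obtain ⟨ψ, a, b, c⟩ := h 3 _ gnH (Finset.univ.image fun i : Fin 3 => .of i.castSucc ^ 2)
    refine b (rigid ψ a fun i => ?_)
    simpa using (c _ (Finset.mem_image_of_mem _ (Finset.mem_univ i))).2 (by simpa using H.MP_f5330b_al.sq i)

end Pool.Agent.Results.MP_f5330b_al.NotQI
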